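import Pool.Agent.Q257.RI.Case2

set_option autoImplicit false

namespace Pool.Agent.Results.MP_c25556_co.RootedIrregular

/-- For every connected graph `F` on `n ≥ 3` vertices and every root `r`, unless `F` is the star
with centre `r`, there are graphs `G` of arbitrarily large order in which distinct vertices `v`
have distinct rooted `F`-degrees, that is, distinct numbers of subgraphs `H` of `G` for which some
isomorphism from `F` onto `H` maps `r` to `v`. -/
theorem result (n : ℕ) (F : SimpleGraph (Fin n)) (r : Fin n) (hn : 3 ≤ n) (hF : F.Connected)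
    (hstar : ¬ ((∀ a, a ≠ r → F.Adj r a) ∧ ∀ a b, a ≠ r → b ≠ r → ¬ F.Adj a b)) (N : ℕ) :
    ∃ (m : ℕ) (G : SimpleGraph (Fin m)), N ≤ m ∧
      ∀ u v : Fin m, u ≠ v →
        {H : G.Subgraph | ∃ φ : F ≃g H.coe, ((φ r : H.verts) : Fin m) = u}.ncard ≠
        {H : G.Subgraph | ∃ φ : F ≃g H.coe, ((φ r : H.verts) : Fin m) = v}.ncard := by
  obtain ⟨m, G, hm, hG⟩ := Pool.Agent.Q257.RI.main n F r hn hF hstar N
  exact ⟨m, G, hm, fun u v huv h => huv (hG h)⟩

end Pool.Agent.Results.MP_c25556_co.RootedIrregular
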